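import Pool.Agent.Helper27.Nerve.Main
import Pool.Agent.Helper27.Nerve.Moment

/-!
A finite simplicial complex is a Tverberg complex in some dimension if and only if it has a vertex;
a complex with `f` facets and at least one vertex is `d`-Tverberg for all `d ≥ max 1 (f - 1)`.
-/

set_option autoImplicit false

namespace Pool.Agent.Results.MP_a73a08_co.EveryComplexTverberg

open Pool.Agent.Helper27.Nerve

theorem result (V : Type) [Finite V] (K : SComplex V) :
    (Nonempty V → ∀ d : ℕ, 1 ≤ d → K.facets.ncard ≤ d + 1 → IsTverberg K d) ∧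
    ((∃ d : ℕ, 1 ≤ d ∧ IsTverberg K d) ↔ Nonempty V) := by
  classical
  haveI := Fintype.ofFinite V
  refine ⟨fun hV d _ h => main K d h, ⟨?_, ?_⟩⟩
  · rintro ⟨d, hd, h⟩
    by_contra hV
    haveI : IsEmpty V := not_nonempty_iff.mp hV
    exact not_isTverberg_of_isEmpty K d hd h
  · intro hV
    exact ⟨K.facets.ncard + 1, by omega, main K _ (by omega)⟩

end Pool.Agent.Results.MP_a73a08_co.EveryComplexTverberg
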